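import Pool.Agent.NH97.MI.Stm

set_option autoImplicit false

/-! # MI-6: the orders along the arcs -/

namespace Pool.Agent.NH97.MI

open MvPolynomial

namespace ARC

/-- the constant coefficient of the pullback along an arc through the origin -/
theorem constCoeff_aeval {n : ℕ} (γ : Fin n → PowerSeries ℂ)
    (hγ : ∀ i, PowerSeries.constantCoeff (γ i) = 0) (p : MvPolynomial (Fin n) ℂ) :
    PowerSeries.constantCoeff (aeval γ p) = constantCoeff p := by
  induction p using MvPolynomial.induction_on with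
  | C a => simp [MvPolynomial.aeval_C, MvPolynomial.constantCoeff_C, PowerSeries.algebraMap_apply]
  | add p q hp hq => rw [map_add, map_add, map_add, hp, hq]
  | mul_X p i hp =>
    rw [map_mul, map_mul, map_mul, hp, aeval_X, hγ, constantCoeff_X]

/-- the pullback of the powers of the ideal -/
theorem pow_dvd {n : ℕ} (I : Ideal (MvPolynomial (Fin n) ℂ)) (γ : Fin n → PowerSeries ℂ) (e : ℕ)
    (h : ∀ g ∈ I, (PowerSeries.X : PowerSeries ℂ) ^ e ∣ aeval γ g) (i : ℕ)
    (g : MvPolynomial (Fin n) ℂ) (hg : g ∈ I ^ i) :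
    (PowerSeries.X : PowerSeries ℂ) ^ (e * i) ∣ aeval γ g := by
  have h1 : I.map (aeval γ : MvPolynomial (Fin n) ℂ →ₐ[ℂ] PowerSeries ℂ) ≤
      Ideal.span {(PowerSeries.X : PowerSeries ℂ) ^ e} := by
    rw [Ideal.map_le_iff_le_comap]
    intro g hg
    rw [Ideal.mem_comap, Ideal.mem_span_singleton]
    exact h g hg
  have h2 : (I ^ i).map (aeval γ : MvPolynomial (Fin n) ℂ →ₐ[ℂ] PowerSeries ℂ) ≤
      Ideal.span {(PowerSeries.X : PowerSeries ℂ) ^ (e * i)} := by
    rw [Ideal.map_pow, pow_mul, ← Ideal.span_singleton_pow]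
    exact Ideal.pow_right_mono h1 i
  exact Ideal.mem_span_singleton.1 (h2 (Ideal.mem_map_of_mem _ hg))

end ARC

open ARC in
/-- MI-6 -/
theorem t_ARC : S_ARC := by
  intro n I y hy γ hγ e he
  obtain ⟨N, H, c, hN, hH, hc, hEq⟩ := hy
  have key : ∀ k, k ≤ e → (PowerSeries.X : PowerSeries ℂ) ^ k ∣ aeval γ y := by
    intro k
    induction k with
    | zero => intro _; simp
    | succ k ih =>
      intro hk
      obtain ⟨V, hV⟩ := ih (by omega)
      have h1 : (aeval γ H : PowerSeries ℂ) * (aeval γ y) ^ N =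
          ∑ i ∈ Finset.range N, aeval γ (c (N - i)) * (aeval γ y) ^ i := by
        have := congrArg (aeval γ : MvPolynomial (Fin n) ℂ →ₐ[ℂ] PowerSeries ℂ) hEq
        simpa only [map_mul, map_pow, map_sum] using this
      have h2 : (PowerSeries.X : PowerSeries ℂ) ^ (k * N + 1) ∣
          ∑ i ∈ Finset.range N, aeval γ (c (N - i)) * (aeval γ y) ^ i := by
        refine Finset.dvd_sum fun i hi => ?_
        have hi' : i < N := Finset.mem_range.1 hi
        have h3 := pow_dvd I γ e he (N - i) (c (N - i)) (hc (N - i))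
        have h4 : (PowerSeries.X : PowerSeries ℂ) ^ (k * i) ∣ (aeval γ y) ^ i := by
          rw [hV, mul_pow, ← pow_mul]
          exact dvd_mul_right _ _
        have h5 := mul_dvd_mul h3 h4
        rw [← pow_add] at h5
        refine (pow_dvd_pow _ ?_).trans h5
        obtain ⟨j, rfl⟩ : ∃ j, N = i + j := ⟨N - i, by omega⟩
        have hj : 1 ≤ j := by omega
        have : i + j - i = j := by omega
        rw [this]
        nlinarith [Nat.mul_le_mul_right j hk]
      rw [← h1, hV, mul_pow, ← pow_mul, pow_succ] at h2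
      have h6 : (PowerSeries.X : PowerSeries ℂ) ^ (k * N) * PowerSeries.X ∣
          PowerSeries.X ^ (k * N) * ((aeval γ H : PowerSeries ℂ) * V ^ N) := by
        refine h2.trans (dvd_of_eq ?_)
        ring
      have h7 : (PowerSeries.X : PowerSeries ℂ) ∣ (aeval γ H : PowerSeries ℂ) * V ^ N :=
        (mul_dvd_mul_iff_left (pow_ne_zero _ PowerSeries.X_ne_zero)).1 h6
      rcases PowerSeries.X_prime.dvd_or_dvd h7 with h8 | h8
      · exfalso
        apply hH
        rw [← constCoeff_aeval γ hγ]
        exact PowerSeries.X_dvd_iff.1 h8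
      · obtain ⟨W, hW⟩ := PowerSeries.X_prime.dvd_of_dvd_pow h8
        exact ⟨W, by rw [hV, hW, pow_succ, mul_assoc]⟩
  exact key e le_rfl

end Pool.Agent.NH97.MI
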