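import Pool.Agent.NH97.MI.Stm
import Pool.Agent.NH97.MM.WRoot
import Pool.Agent.NH52.CI.Mono

set_option autoImplicit false
set_option linter.unusedSectionVars false
set_option linter.unusedVariables false

/-! # Project MI: assembly -/

namespace Pool.Agent.NH97.MI

open MvPolynomial Pool.Agent.W574.MO Pool.Agent.W574.SM Pool.Agent.W574.LM Pool.Agent.W574.HS
  Pool.Agent.W574.RO Pool.Agent.W574.CN Pool.Agent.Y229
open Pool.Agent.W426.SM (gord ford IsRay face)
open Pool.Agent.NH52.CI (mono mvol S_DEN)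

/-- the facets with a positive weight have positive coordinates -/
theorem pos_of_fin {n s : ℕ} (m : Fin s → Fin n → ℕ) (hfin : ∀ i, ∃ k, ∀ i' ≠ i, m k i' = 0)
    (a : Fin n → ℕ) (ha : 0 < gord m a) : ∀ i, 1 ≤ a i := by
  intro i
  obtain ⟨k, hk⟩ := hfin i
  by_contra h
  have h0 : a i = 0 := by omega
  have h1 : gord m a ≤ ∑ i', a i' * m k i' := ciInf_le (OrderBot.bddBelow _) k
  have h2 : ∑ i', a i' * m k i' = 0 := Finset.sum_eq_zero fun i' _ => by
    by_cases h : i' = i
    · rw [h, h0, zero_mul]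
    · rw [hk i' h, mul_zero]
  omega

theorem gord_le {n s : ℕ} (m : Fin s → Fin n → ℕ) (a : Fin n → ℕ) (k : Fin s) :
    gord m a ≤ ∑ i, a i * m k i := ciInf_le (OrderBot.bddBelow _) k

theorem exists_face {n s : ℕ} (hs : 0 < s) (m : Fin s → Fin n → ℕ) (a : Fin n → ℕ) :
    ∃ k, face m a k := by
  have : Nonempty (Fin s) := ⟨⟨0, hs⟩⟩
  obtain ⟨k, hk⟩ := exists_eq_ciInf_of_finite (f := fun k : Fin s => ∑ i, a i * m k i)
  exact ⟨k, hk⟩

/-- some of the initial forms are algebraically independent -/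
theorem exists_det (hRED : S_RED) (hDRV : S_DRV) (hLIN : S_LIN) (hFAC : S_FAC) {n r s : ℕ}
    (f : Fin r → MvPolynomial (Fin (n + 1)) ℂ) (hs : 0 < s) (m : Fin s → Fin (n + 1) → ℕ)
    (hJ : ∀ k, IntegralAt (Ideal.span (Set.range f)) (mon (m k))) (a : Fin (n + 1) → ℕ)
    (ha : IsRay m a) (hd : 0 < gord m a) (hpos : ∀ i, 1 ≤ a i)
    (hf : ∀ j, ∀ k < gord m a, weightedHomogeneousComponent a k (f j) = 0) :
    ∃ e : Fin (n + 1) → Fin r, (Matrix.of fun s t => pderiv s
      (weightedHomogeneousComponent a (gord m a) (f (e t)))).det ≠ 0 := by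
  classical
  by_contra hne
  push Not at hne
  obtain ⟨c, hc0, hc⟩ := hLIN
    (fun j i => pderiv i (weightedHomogeneousComponent a (gord m a) (f j))) hne
  set D : Derivation ℂ (MvPolynomial (Fin (n + 1)) ℂ) (MvPolynomial (Fin (n + 1)) ℂ) :=
    ∑ i, c i • pderiv i with hD
  have hDp : ∀ p, D p = ∑ i, c i * pderiv i p := by
    intro p
    have h := congrFun (map_sum (Derivation.coeFnAddMonoidHom (R := ℂ)
      (A := MvPolynomial (Fin (n + 1)) ℂ) (M := MvPolynomial (Fin (n + 1)) ℂ))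
      (fun i => c i • pderiv i) Finset.univ) p
    rw [Finset.sum_apply] at h
    exact h
  have hDg : ∀ g ∈ Algebra.adjoin ℂ
      (Set.range fun j => weightedHomogeneousComponent a (gord m a) (f j)), D g = 0 := by
    intro g hg
    induction hg using Algebra.adjoin_induction with
    | mem x hx =>
      obtain ⟨j, rfl⟩ := hx
      rw [hDp]
      exact hc j
    | algebraMap z => exact D.map_algebraMap z
    | add x y _ _ hx hy => rw [map_add, hx, hy, add_zero]
    | mul x y _ _ hx hy => rw [Derivation.leibniz, hx, hy, smul_zero, smul_zero, add_zero]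
  apply hc0
  refine hFAC a {μ | ∃ k, face m a k ∧ m k = μ} (gord m a) hd ?_ hpos ?_ ?_ c ?_
  · obtain ⟨k, hk⟩ := exists_face hs m a
    exact ⟨m k, k, hk, rfl⟩
  · rintro μ ⟨k, hk, rfl⟩
    exact hk
  · intro u hu
    refine ha.2 u (fun i hi => ?_) fun j j' hj hj' => hu _ ⟨j, hj, rfl⟩ _ ⟨j', hj', rfl⟩
    have := hpos i
    omega
  · rintro μ ⟨k, hk, rfl⟩
    rw [← hDp]
    exact hDRV _ D hDg _ (hRED f a hpos (gord m a) hf (m k) hk (hJ k))

/-- the generators are not all zero -/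
theorem ne_zero_of_integral {n r : ℕ} (f : Fin r → MvPolynomial (Fin n) ℂ) (μ : Fin n → ℕ)
    (h : IntegralAt (Ideal.span (Set.range f)) (mon μ)) : ∃ j, f j ≠ 0 := by
  by_contra hne
  push Not at hne
  have h0 : Ideal.span (Set.range f) = ⊥ := by
    rw [Ideal.span_eq_bot]
    rintro _ ⟨j, rfl⟩
    exact hne j
  obtain ⟨N, H, c, hN, hH, hc, heq⟩ := h
  have h1 : ∑ i ∈ Finset.range N, c (N - i) * mon μ ^ i = 0 := by
    refine Finset.sum_eq_zero fun i hi => ?_
    rw [Finset.mem_range] at hi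
    have h2 := hc (N - i)
    rw [h0] at h2
    have h3 : c (N - i) ∈ (⊥ : Ideal (MvPolynomial (Fin n) ℂ)) :=
      Ideal.pow_le_self (by omega) h2
    rw [(Submodule.mem_bot _).1 h3, zero_mul]
  rw [h1] at heq
  rcases mul_eq_zero.1 heq with h | h
  · rw [h, map_zero] at hH
    exact hH rfl
  · have h4 : mon μ ≠ 0 := by
      unfold mon
      exact Finset.prod_ne_zero_iff.2 fun i _ => pow_ne_zero _ (X_ne_zero i)
    exact h4 (pow_eq_zero_iff (by omega) |>.1 h)

/-- **Ideals of finite colength with a monomial integral closure.** -/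
theorem mi_main (hRED : S_RED) (hDRV : S_DRV) (hLIN : S_LIN) (hFAC : S_FAC) (hSUB : S_SUB)
    {n r s : ℕ} (f : Fin r → MvPolynomial (Fin (n + 1)) ℂ) (m : Fin s → Fin (n + 1) → ℕ)
    (hfin : ∀ i, ∃ k, ∀ i' ≠ i, m k i' = 0)
    (hI : ∀ j, f j ∈ Ideal.span (Set.range fun k => mon (m k)))
    (hJ : ∀ k, IntegralAt (Ideal.span (Set.range f)) (mon (m k))) :
    ∀ a : Fin (n + 1) → ℕ, IsRay m a → 0 < gord m a → KS f 0 (gord m a) (∑ i, a i) := by
  classical
  obtain ⟨k0, -⟩ := hfin 0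
  have hs : 0 < s := k0.pos
  have hne := ne_zero_of_integral f (m k0) (hJ k0)
  intro a ha hd
  have hpos := pos_of_fin m hfin a hd
  have hf : ∀ j, ∀ k < gord m a, weightedHomogeneousComponent a k (f j) = 0 := fun j k hk =>
    hSUB m a (gord m a) (gord_le m a) (f j) (hI j) k hk
  obtain ⟨e, he⟩ := exists_det hRED hDRV hLIN hFAC f hs m hJ a ha hd hpos hf
  refine sf_of_local f 0 _ (fun H b hb hH => ?_) (exists_fe f hne)
  exact Pool.Agent.NH97.MM.semi_root f a hpos (gord m a) hd hf b H hb hH e he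

end Pool.Agent.NH97.MI
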