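import Pool.Agent.NH97.MI.Stm2
import Pool.Agent.NH97.MI.Asm
import Pool.Agent.NH97.MI.WGen
import Pool.Agent.NH97.MM.Loc
import Pool.Agent.NH97.MM.T1
import Pool.Agent.NH97.MM.T2
import Pool.Agent.NH97.MM.ADD
import Pool.Agent.NH97.MM.DRP
import Pool.Agent.NH97.MM.EQV
import Pool.Agent.NH97.MM.SAM

set_option autoImplicit false
set_option linter.unusedSectionVars false
set_option linter.unusedVariables false

/-! # Project MI: assembly without the condition of finite colength -/

namespace Pool.Agent.NH97.MI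

open MvPolynomial Pool.Agent.W574.MO Pool.Agent.W574.SM Pool.Agent.W574.LM Pool.Agent.W574.HS
  Pool.Agent.W574.RO Pool.Agent.W574.CN Pool.Agent.Y229
open Pool.Agent.W426.SM (gord ford IsRay face)
open Pool.Agent.NH52.CI (mono mvol S_DEN)

/-- Forced roots do not depend on the generators of the ideal. -/
theorem sf_same {σ ι κ : Type} [Fintype σ] [DecidableEq σ] [Fintype ι] [Fintype κ]
    [DecidableEq ι] [DecidableEq κ]
    (f : ι → MvPolynomial σ ℂ) (g : κ → MvPolynomial σ ℂ)
    (hI : Ideal.span (Set.range g) = Ideal.span (Set.range f))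
    (hg : ∃ k, g k ≠ 0) (α : ℂ) (h : SF f 0 α) : SF g 0 α := by
  classical
  refine sf_of_local g 0 α (fun H b hb hH => ?_) (exists_fe g hg)
  rw [MvPolynomial.eval_zero] at hH
  have h1 := Pool.Agent.NH97.MM.lb_of_loc g b H hH hb
  have h2 := Pool.Agent.NH97.MM.t_T1 σ κ g b h1
  have key : ∀ {τ : Type} (q : τ → MvPolynomial σ ℂ),
      Ideal.span (Set.range fun k => (q k : MvPowerSeries σ ℂ)) =
        (Ideal.span (Set.range q)).map MvPolynomial.coeToMvPowerSeries.ringHom := by
    intro τ q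
    rw [Ideal.map_span, ← Set.range_comp]
    rfl
  have hI' : Ideal.span (Set.range fun k => (g k : MvPowerSeries σ ℂ)) =
      Ideal.span (Set.range fun j => (f j : MvPowerSeries σ ℂ)) := by
    rw [key, key, hI]
  have h5 := Pool.Agent.NH97.MM.t_SAM Pool.Agent.NH97.MM.t_ADD Pool.Agent.NH97.MM.t_DRP
    Pool.Agent.NH97.MM.t_EQV σ κ ι _ (fun j => (f j : MvPowerSeries σ ℂ)) hI' b h2
  exact h.localBI b (Pool.Agent.NH97.MM.t_T2 σ ι f b h5)

/-- the forced root for weights which may be zero -/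
theorem sf_weight (hREN : S_REN) {n : ℕ} {ι : Type} [Fintype ι] [DecidableEq ι]
    (f : ι → MvPolynomial (Fin (n + 1)) ℂ) (a : Fin (n + 1) → ℕ) (i0 : Fin (n + 1))
    (hi0 : 1 ≤ a i0) (d : ℕ) (hd : 0 < d)
    (hf : ∀ j, ∀ k < d, weightedHomogeneousComponent a k (f j) = 0) (hne : ∃ j, f j ≠ 0)
    (e : Fin (n + 1) → ι)
    (he : (Matrix.of fun s t => pderiv s (weightedHomogeneousComponent a d (f (e t)))).det ≠ 0) :
    SF f 0 (-((∑ i, a i : ℕ) : ℂ) / d) := by
  classical
  set σ : Equiv.Perm (Fin (n + 1)) := Equiv.swap 0 i0 with hσ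
  obtain ⟨h1, h2⟩ := hREN σ
  have h3 : SF (fun j => rename σ (f j)) 0 (-((∑ i, a i : ℕ) : ℂ) / d) := by
    refine sf_of_local _ 0 _ (fun H b hb hH => ?_) (exists_fe _ ?_)
    · have h4 := Pool.Agent.NH97.MI.WG.semi_root (fun j => rename σ (f j)) (a ∘ σ.symm) (by
          rw [Function.comp_apply, hσ, Equiv.symm_swap, Equiv.swap_apply_left]
          exact hi0) d hd (fun j k hk => by rw [h1, hf j k hk, map_zero]) b H hb hH e (by
          simp only [h1]
          exact h2 _ he)
      have h5 : ∑ i, (a ∘ σ.symm) i = ∑ i, a i := Equiv.sum_comp σ.symm a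
      rwa [h5] at h4
    · obtain ⟨j, hj⟩ := hne
      exact ⟨j, (map_ne_zero_iff _ (rename_injective _ σ.injective)).2 hj⟩
  refine sf_equiv σ.symm (Equiv.refl ι) (fun j => rename σ (f j)) f (fun j => ?_) 0 _ h3
  rw [Equiv.refl_apply, rename_rename, Equiv.symm_comp_self, rename_id_apply]

end Pool.Agent.NH97.MI
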