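import Pool.Agent.NH97.MI.Asm2

set_option autoImplicit false
set_option linter.unusedSectionVars false
set_option linter.unusedVariables false

/-! # Project MI: assembly without the condition of finite colength, the main theorem -/

namespace Pool.Agent.NH97.MI

open MvPolynomial Pool.Agent.W574.MO Pool.Agent.W574.SM Pool.Agent.W574.LM Pool.Agent.W574.HS
  Pool.Agent.W574.RO Pool.Agent.W574.CN Pool.Agent.Y229
open Pool.Agent.W426.SM (gord ford IsRay face)
open Pool.Agent.NH52.CI (mono mvol S_DEN)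

/-- the family `f_j`, `x_t f_j`, `a_t = 0` -/
noncomputable def enl {n r : ℕ} (a : Fin n → ℕ) (f : Fin r → MvPolynomial (Fin n) ℂ) :
    Fin r ⊕ ({i : Fin n // a i = 0} × Fin r) → MvPolynomial (Fin n) ℂ :=
  Sum.elim f fun x => X x.1.1 * f x.2

theorem whc_mul (hPHI : S_PHI) {n : ℕ} (a : Fin n → ℕ) (t : Fin n) (ht : a t = 0) (k : ℕ)
    (p : MvPolynomial (Fin n) ℂ) : weightedHomogeneousComponent a k (X t * p) =
      X t * weightedHomogeneousComponent a k p := by
  rw [← hPHI, ← hPHI, map_mul]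
  have h : phi a (X t) = Polynomial.C (X t) := by
    rw [phi, eval₂Hom_X', ht, pow_zero, one_mul]
  rw [h, Polynomial.coeff_C_mul]

theorem whc_enl (hPHI : S_PHI) {n r : ℕ} (a : Fin n → ℕ) (k : ℕ)
    (f : Fin r → MvPolynomial (Fin n) ℂ) (j) : weightedHomogeneousComponent a k (enl a f j) =
      enl a (fun j => weightedHomogeneousComponent a k (f j)) j := by
  rcases j with j | ⟨⟨t, ht⟩, j⟩
  · rfl
  · exact whc_mul hPHI a t ht k (f j)

theorem span_enl {n r : ℕ} (a : Fin n → ℕ) (f : Fin r → MvPolynomial (Fin n) ℂ) :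
    Ideal.span (Set.range f) = Ideal.span (Set.range (enl a f)) := by
  apply le_antisymm
  · rw [Ideal.span_le]
    rintro _ ⟨j, rfl⟩
    exact Ideal.subset_span ⟨Sum.inl j, rfl⟩
  · rw [Ideal.span_le]
    rintro _ ⟨j | ⟨t, j⟩, rfl⟩
    · exact Ideal.subset_span ⟨j, rfl⟩
    · exact Ideal.mul_mem_left _ _ (Ideal.subset_span ⟨j, rfl⟩)

/-- the derivation `∑ c_i ∂_i` -/
theorem exists_der {n : ℕ} (c : Fin n → MvPolynomial (Fin n) ℂ) :
    ∃ D : Derivation ℂ (MvPolynomial (Fin n) ℂ) (MvPolynomial (Fin n) ℂ),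
      (∀ p, D p = ∑ i, c i * pderiv i p) ∧ ∀ i, D (X i) = c i := by
  classical
  have h0 : ∀ p, (∑ i, c i • pderiv i : Derivation ℂ (MvPolynomial (Fin n) ℂ)
      (MvPolynomial (Fin n) ℂ)) p = ∑ i, c i * pderiv i p := by
    intro p
    have h := congrFun (map_sum (Derivation.coeFnAddMonoidHom (R := ℂ)
      (A := MvPolynomial (Fin n) ℂ) (M := MvPolynomial (Fin n) ℂ))
      (fun i => c i • pderiv i) Finset.univ) p
    rw [Finset.sum_apply] at h
    exact h
  refine ⟨_, h0, fun i => ?_⟩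
  rw [h0, Finset.sum_eq_single i]
  · rw [pderiv_X_self, mul_one]
  · intro j _ hj
    rw [pderiv_X_of_ne (Ne.symm hj), mul_zero]
  · intro h
    exact absurd (Finset.mem_univ i) h

theorem der_adjoin {n r : ℕ} (a : Fin n → ℕ) (g : Fin r → MvPolynomial (Fin n) ℂ)
    (D : Derivation ℂ (MvPolynomial (Fin n) ℂ) (MvPolynomial (Fin n) ℂ))
    (hX : ∀ i, a i = 0 → D (X i) = 0) (hg : ∀ j, D (g j) = 0) :
    ∀ p ∈ Algebra.adjoin ℂ ({p | ∃ i, a i = 0 ∧ p = X i} ∪ Set.range g), D p = 0 := by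
  intro p hp
  induction hp using Algebra.adjoin_induction with
  | mem x hx =>
    rcases hx with ⟨i, hi, rfl⟩ | ⟨j, rfl⟩
    · exact hX i hi
    · exact hg j
  | algebraMap z => exact D.map_algebraMap z
  | add x y _ _ hx hy => rw [map_add, hx, hy, add_zero]
  | mul x y _ _ hx hy => rw [Derivation.leibniz, hx, hy, smul_zero, smul_zero, add_zero]

theorem mon_ne {n : ℕ} (μ : Fin n → ℕ) : mon μ ≠ 0 := by
  unfold mon
  exact Finset.prod_ne_zero_iff.2 fun i _ => pow_ne_zero _ (X_ne_zero i)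

/-- Euler's formula for a monomial -/
theorem euler_mon {n : ℕ} (a μ : Fin n → ℕ) :
    ∑ i, (a i • X i) * pderiv i (mon μ) = (∑ i, a i * μ i) • mon μ := by
  have h : (mon μ).IsWeightedHomogeneous a (∑ i, a i * μ i) := by
    have h1 : mon μ = monomial (Finsupp.equivFunOnFinite.symm μ) (1 : ℂ) := by
      rw [mon, monomial_eq, C_1, one_mul, Finsupp.prod_fintype]
      · rfl
      · intro i
        exact pow_zero _
    rw [h1]
    apply isWeightedHomogeneous_monomial
    rw [Finsupp.weight_apply, Finsupp.sum_fintype]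
    · refine Finset.sum_congr rfl fun i _ => ?_
      rw [smul_eq_mul, mul_comm]
      rfl
    · intro i
      exact zero_smul _ _
  rw [← h.sum_weight_X_mul_pderiv]
  refine Finset.sum_congr rfl fun i _ => ?_
  rw [smul_mul_assoc]

/-- the enlarged family of initial forms contains `n` algebraically independent ones -/
theorem exists_det2 (hPHI : S_PHI) (hRED : S_RED2) (hDRV : S_DRV2) (hLIN : S_LIN) (hFAC : S_FAC2)
    {n r s : ℕ}
    (f : Fin r → MvPolynomial (Fin (n + 1)) ℂ) (hs : 0 < s) (m : Fin s → Fin (n + 1) → ℕ)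
    (hJ : ∀ k, IntegralAt (Ideal.span (Set.range f)) (mon (m k))) (a : Fin (n + 1) → ℕ)
    (ha : IsRay m a) (hd : 0 < gord m a)
    (hf : ∀ j, ∀ k < gord m a, weightedHomogeneousComponent a k (f j) = 0) :
    ∃ e : Fin (n + 1) → Fin r ⊕ ({i : Fin (n + 1) // a i = 0} × Fin r),
      (Matrix.of fun s t => pderiv s
        (weightedHomogeneousComponent a (gord m a) (enl a f (e t)))).det ≠ 0 := by
  classical
  by_contra hne
  push Not at hne
  set g : Fin r → MvPolynomial (Fin (n + 1)) ℂ :=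
    fun j => weightedHomogeneousComponent a (gord m a) (f j) with hg
  simp only [whc_enl hPHI] at hne
  set q := Fintype.equivFin (Fin r ⊕ ({i : Fin (n + 1) // a i = 0} × Fin r)) with hq
  obtain ⟨c, hc0, hc⟩ := hLIN (fun j i => pderiv i (enl a g (q.symm j)))
    (fun e => hne (fun t => q.symm (e t)))
  obtain ⟨D, hDp, hDX⟩ := exists_der c
  have hD' : ∀ j, D (enl a g j) = 0 := by
    intro j
    have := hc (q j)
    rw [Equiv.symm_apply_apply] at this
    rw [hDp]
    exact this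
  have hDg : ∀ j, D (g j) = 0 := fun j => hD' (Sum.inl j)
  obtain ⟨k0, hk0⟩ := exists_face hs m a
  -- one of the initial forms is not zero
  obtain ⟨j0, hj0⟩ : ∃ j, g j ≠ 0 := by
    by_contra hz
    push Not at hz
    obtain ⟨E, hEp, hEX⟩ := exists_der fun i => a i • (X i : MvPolynomial (Fin (n + 1)) ℂ)
    have h1 := hDRV _ E (der_adjoin a g E (fun i hi => by rw [hEX, hi, zero_smul])
      (fun j => by rw [hz, map_zero])) _ (hRED f a (gord m a) hf (m k0) hk0 (hJ k0))
    rw [hEp, euler_mon] at h1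
    have h2 : ∑ i, a i * m k0 i = gord m a := hk0
    rw [h2, nsmul_eq_mul] at h1
    rcases mul_eq_zero.1 h1 with h | h
    · exact hd.ne' (by exact_mod_cast h)
    · exact mon_ne _ h
  have hcZ : ∀ t, a t = 0 → c t = 0 := by
    intro t ht
    have h1 := hD' (Sum.inr (⟨t, ht⟩, j0))
    change D (X t * g j0) = 0 at h1
    rw [Derivation.leibniz, hDg, smul_zero, zero_add, hDX, smul_eq_mul] at h1
    exact (mul_eq_zero.1 h1).resolve_left hj0
  apply hc0
  refine hFAC a {μ | ∃ k, face m a k ∧ m k = μ} (gord m a) hd ⟨m k0, k0, hk0, rfl⟩ ?_ ?_ c hcZ ?_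
  · rintro μ ⟨k, hk, rfl⟩
    exact hk
  · intro u hu0 hu
    exact ha.2 u hu0 fun j j' hj hj' => hu _ ⟨j, hj, rfl⟩ _ ⟨j', hj', rfl⟩
  · rintro μ ⟨k, hk, rfl⟩
    rw [← hDp]
    exact hDRV _ D (der_adjoin a g D (fun i hi => by rw [hDX, hcZ i hi]) hDg) _
      (hRED f a (gord m a) hf (m k) hk (hJ k))

/-- **Ideals with a monomial integral closure.** -/
theorem mi_main2 (hPHI : S_PHI) (hRED : S_RED2) (hDRV : S_DRV2) (hLIN : S_LIN) (hFAC : S_FAC2)
    (hSUB : S_SUB) (hREN : S_REN) {n r s : ℕ} (f : Fin r → MvPolynomial (Fin (n + 1)) ℂ)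
    (m : Fin s → Fin (n + 1) → ℕ) (hs : 0 < s)
    (hI : ∀ j, f j ∈ Ideal.span (Set.range fun k => mon (m k)))
    (hJ : ∀ k, IntegralAt (Ideal.span (Set.range f)) (mon (m k))) :
    ∀ a : Fin (n + 1) → ℕ, IsRay m a → 0 < gord m a → KS f 0 (gord m a) (∑ i, a i) := by
  classical
  obtain ⟨j, hj⟩ := ne_zero_of_integral f (m ⟨0, hs⟩) (hJ _)
  intro a ha hd
  have hf : ∀ j, ∀ k < gord m a, weightedHomogeneousComponent a k (f j) = 0 := fun j k hk =>
    hSUB m a (gord m a) (gord_le m a) (f j) (hI j) k hk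
  obtain ⟨e, he⟩ := exists_det2 hPHI hRED hDRV hLIN hFAC f hs m hJ a ha hd hf
  obtain ⟨i0, hi0⟩ : ∃ i, a i ≠ 0 := Function.ne_iff.1 ha.1
  refine sf_same (enl a f) f (span_enl a f) ⟨j, hj⟩ _ ?_
  refine sf_weight hREN (enl a f) a i0 (Nat.pos_of_ne_zero hi0) (gord m a) hd ?_
    ⟨Sum.inl j, hj⟩ e he
  intro j' k hk
  rw [whc_enl hPHI]
  rcases j' with j' | ⟨t, j'⟩
  · exact hf j' k hk
  · change X t.1 * weightedHomogeneousComponent a k (f j') = 0
    rw [hf j' k hk, mul_zero]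

end Pool.Agent.NH97.MI
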