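import Pool.Agent.NH97.MI.Stm

set_option autoImplicit false

/-! # MI-3: derivations and integral elements -/

namespace Pool.Agent.NH97.MI

open MvPolynomial

namespace DRV

variable {A : Type} [CommRing A] [Algebra ℂ A]

/-- a derivation which kills the subalgebra `R` is a derivation over `R` -/
noncomputable def ext (R : Subalgebra ℂ A) (D : Derivation ℂ A A) (h : ∀ g ∈ R, D g = 0) :
    Derivation R A A :=
  Derivation.mk'
    { toFun := fun a => D a
      map_add' := fun a b => D.map_add a b
      map_smul' := fun r a => by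
        have h1 : (r • a : A) = (r : A) * a := rfl
        rw [h1, D.leibniz, h r r.2, smul_zero, add_zero]
        rfl }
    (fun a b => D.leibniz a b)

lemma drv [IsDomain A] [CharZero A] (R : Subalgebra ℂ A) (D : Derivation ℂ A A)
    (h : ∀ g ∈ R, D g = 0) (y : A) (hy : IsIntegral R y) : D y = 0 := by
  classical
  have hex : ∃ k : ℕ, ∃ P : Polynomial R, P ≠ 0 ∧ Polynomial.aeval y P = 0 ∧ P.natDegree = k := by
    obtain ⟨P, hP, hP0⟩ := hy
    exact ⟨_, P, hP.ne_zero, hP0, rfl⟩
  obtain ⟨P, hP, hP0, hk⟩ := Nat.find_spec hex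
  have hmin : ∀ Q : Polynomial R, Q ≠ 0 → Polynomial.aeval y Q = 0 → P.natDegree ≤ Q.natDegree := by
    intro Q hQ hQ0
    rw [hk]
    exact Nat.find_min' hex ⟨Q, hQ, hQ0, rfl⟩
  have hpos : 0 < P.natDegree := by
    rw [Nat.pos_iff_ne_zero]
    intro h0
    rw [Polynomial.eq_C_of_natDegree_eq_zero h0, Polynomial.aeval_C] at hP0
    have h1 : P.coeff 0 = 0 := by
      apply Subtype.ext
      exact hP0
    apply hP
    rw [Polynomial.eq_C_of_natDegree_eq_zero h0, h1, Polynomial.C_0]
  have hD := Derivation.map_aeval (D := ext R D h) P y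
  rw [hP0, map_zero] at hD
  have hd0 : Polynomial.derivative P ≠ 0 := by
    intro h0
    have := Polynomial.natDegree_eq_zero_of_derivative_eq_zero h0
    omega
  have hd : Polynomial.aeval y (Polynomial.derivative P) ≠ 0 := by
    intro h0
    have h1 := hmin _ hd0 h0
    have h2 := Polynomial.natDegree_derivative_lt hpos.ne'
    omega
  have h3 : Polynomial.aeval y (Polynomial.derivative P) * D y = 0 := hD.symm
  exact (mul_eq_zero.1 h3).resolve_left hd

end DRV

theorem t_DRV : S_DRV := by
  intro n R D h y hy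
  exact DRV.drv R D h y hy

end Pool.Agent.NH97.MI
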