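import Pool.Agent.NH97.MI.Stm

/-! Project MI, job MI-5 FAC: the exponents on a facet span (helper89). -/

set_option autoImplicit false

namespace Pool.Agent.NH97.MI

open MvPolynomial

namespace FAC

variable {n : ℕ}

lemma mon_eq (μ : Fin n → ℕ) : mon μ = monomial (Finsupp.equivFunOnFinite.symm μ) (1 : ℂ) := by
  rw [monomial_eq, C_1, one_mul, Finsupp.prod_fintype _ _ (fun i => pow_zero _)]
  rfl

lemma mon_ne_zero (μ : Fin n → ℕ) : mon μ ≠ 0 := by
  unfold mon
  exact Finset.prod_ne_zero_iff.2 fun i _ => pow_ne_zero _ (X_ne_zero i)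

lemma X_mul_pderiv_mon (μ : Fin n → ℕ) (i : Fin n) :
    X i * pderiv i (mon μ) = μ i • mon μ := by
  rw [mon_eq, X_mul_pderiv_monomial]
  rfl

/-- the product of the variables other than `X i` -/
noncomputable def P (i : Fin n) : MvPolynomial (Fin n) ℂ := ∏ j ∈ Finset.univ.erase i, X j

lemma P_ne_zero (i : Fin n) : P i ≠ 0 :=
  Finset.prod_ne_zero_iff.2 fun j _ => X_ne_zero j

lemma P_mul (i : Fin n) : P i * X i = ∏ j, (X j : MvPolynomial (Fin n) ℂ) :=
  Finset.prod_erase_mul _ _ (Finset.mem_univ i)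

/-- the relation between the `c i * P i` -/
lemma rel {c : Fin n → MvPolynomial (Fin n) ℂ} {μ : Fin n → ℕ}
    (h : ∑ i, c i * pderiv i (mon μ) = 0) : ∑ i, μ i • (c i * P i) = 0 := by
  have h1 : (∑ i, μ i • (c i * P i)) * mon μ = 0 := by
    rw [← zero_mul (∏ j, (X j : MvPolynomial (Fin n) ℂ)), ← h, Finset.sum_mul, Finset.sum_mul]
    refine Finset.sum_congr rfl fun i _ => ?_
    rw [← P_mul i, smul_mul_assoc, ← mul_smul_comm, ← X_mul_pderiv_mon]
    ring
  exact (mul_eq_zero.1 h1).resolve_right (mon_ne_zero μ)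

end FAC

open FAC in
/-- MI-5 -/
theorem t_FAC : S_FAC := by
  intro n a F N hN hne _ hF hspan c hc
  have key : ∀ i, c i * P i = 0 := by
    intro i
    ext ν
    rw [coeff_zero]
    refine (Module.forall_dual_apply_eq_zero_iff ℚ _).1 fun l => ?_
    have h0 : ∀ μ ∈ F, ∑ j, l (coeff ν (c j * P j)) * (μ j : ℚ) = 0 := by
      intro μ hμ
      have h1 := congrArg (fun p => l (coeff ν p)) (rel (hc μ hμ))
      simp only [coeff_zero, map_zero, coeff_sum, map_sum] at h1
      rw [← h1]
      refine Finset.sum_congr rfl fun j _ => ?_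
      rw [coeff_smul, map_nsmul, nsmul_eq_mul, mul_comm]
    obtain ⟨r, hr⟩ := hspan (fun j => l (coeff ν (c j * P j))) fun μ hμ μ' hμ' => by
      rw [h0 μ hμ, h0 μ' hμ']
    obtain ⟨μ, hμ⟩ := hne
    have h2 : r * (N : ℚ) = 0 := by
      rw [← h0 μ hμ, ← hF μ hμ]
      push_cast
      rw [Finset.mul_sum]
      refine Finset.sum_congr rfl fun j _ => ?_
      rw [hr j]
      ring
    have h3 : r = 0 := by
      rcases mul_eq_zero.1 h2 with h | h
      · exact h
      · exfalso
        have h4 : N = 0 := by exact_mod_cast h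
        omega
    have h4 := hr i
    rw [h3, zero_mul] at h4
    exact h4
  funext i
  exact (mul_eq_zero.1 (key i)).resolve_right (P_ne_zero i)

end Pool.Agent.NH97.MI
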