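import Pool.Agent.NH97.MI.Stm2
import Pool.Agent.NH97.MI.FAC

/-! Project MI, job MI-10 FAC2: like `S_FAC`, for weights which may be zero (helper55; after the proof of
helper89). -/

set_option autoImplicit false

namespace Pool.Agent.NH97.MI

open MvPolynomial

open FAC in
/-- MI-10 -/
theorem t_FAC2 : S_FAC2 := by
  intro n a F N hN hne hF hspan c hc0 hc
  have key : ∀ i, c i * P i = 0 := by
    intro i
    ext ν
    rw [coeff_zero]
    refine (Module.forall_dual_apply_eq_zero_iff ℚ _).1 fun l => ?_
    have h0 : ∀ μ ∈ F, ∑ j, l (coeff ν (c j * P j)) * (μ j : ℚ) = 0 := by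
      intro μ hμ
      have h1 := congrArg (fun p => l (coeff ν p)) (rel (hc μ hμ))
      simp only [coeff_zero, map_zero, coeff_sum, map_sum] at h1
      rw [← h1]
      refine Finset.sum_congr rfl fun j _ => ?_
      rw [coeff_smul, map_nsmul, nsmul_eq_mul, mul_comm]
    obtain ⟨r, hr⟩ := hspan (fun j => l (coeff ν (c j * P j))) (fun j hj => by
      rw [hc0 j hj, zero_mul, coeff_zero, map_zero]) fun μ hμ μ' hμ' => by
      rw [h0 μ hμ, h0 μ' hμ']
    obtain ⟨μ, hμ⟩ := hne
    have h2 : r * (N : ℚ) = 0 := by
      rw [← h0 μ hμ, ← hF μ hμ]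
      push_cast
      rw [Finset.mul_sum]
      refine Finset.sum_congr rfl fun j _ => ?_
      rw [hr j]
      ring
    have h3 : r = 0 := by
      rcases mul_eq_zero.1 h2 with h | h
      · exact h
      · exfalso
        have h4 : N = 0 := by exact_mod_cast h
        omega
    have h4 := hr i
    rw [h3, zero_mul] at h4
    exact h4
  funext i
  exact (mul_eq_zero.1 (key i)).resolve_right (P_ne_zero i)

end Pool.Agent.NH97.MI
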