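import Pool.Agent.NH97.MI.Stm

set_option autoImplicit false

/-! # Project MI, part 4: linear algebra over a polynomial ring -/

namespace Pool.Agent.NH97.MI

open MvPolynomial

namespace LIN

theorem main {A : Type} [CommRing A] [IsDomain A] {n r : ℕ} (V : Fin r → Fin n → A)
    (hdet : ∀ e : Fin n → Fin r, (Matrix.of fun s t => V (e t) s).det = 0) :
    ∃ c : Fin n → A, c ≠ 0 ∧ ∀ j, ∑ i, c i * V j i = 0 := by
  classical
  let K := FractionRing A
  let ι : A →+* K := algebraMap A K
  have hι : Function.Injective ι := IsFractionRing.injective A K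
  let s : Set (Fin n → K) := Set.range fun j => fun i => ι (V j i)
  have hW : Submodule.span K s ≠ ⊤ := by
    intro htop
    obtain ⟨f, hf1, -, hf3⟩ := Submodule.exists_fun_fin_finrank_span_eq K s
    have hfr : Module.finrank K (Submodule.span K s) = n := by
      rw [htop, finrank_top, Module.finrank_fin_fun]
    have hind : LinearIndependent K (f ∘ Fin.cast hfr.symm) :=
      hf3.comp _ (Fin.cast_injective _)
    have hex : ∀ t : Fin n, ∃ j : Fin r, (fun i => ι (V j i)) = f (Fin.cast hfr.symm t) :=
      fun t => hf1 _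
    choose e he using hex
    have h1 : LinearIndependent K (Matrix.of fun s t => ι (V (e t) s) : Matrix _ _ K).col := by
      have h2 : (Matrix.of fun s t => ι (V (e t) s) : Matrix (Fin n) (Fin n) K).col =
          f ∘ Fin.cast hfr.symm := by
        funext t
        exact he t
      rw [h2]
      exact hind
    rw [Matrix.linearIndependent_cols_iff_isUnit, Matrix.isUnit_iff_isUnit_det] at h1
    have h3 : (Matrix.of fun s t => ι (V (e t) s) : Matrix (Fin n) (Fin n) K).det = 0 := by
      have h4 : (Matrix.of fun s t => ι (V (e t) s) : Matrix (Fin n) (Fin n) K) =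
          ι.mapMatrix (Matrix.of fun s t => V (e t) s) := rfl
      rw [h4, ← RingHom.map_det, hdet e, map_zero]
    rw [h3] at h1
    exact not_isUnit_zero h1
  obtain ⟨f, hf0, hf⟩ := Submodule.exists_le_ker_of_lt_top _ (lt_top_iff_ne_top.2 hW)
  have hfx : ∀ x : Fin n → K, f x = ∑ i, x i * f (Pi.single i 1) := by
    intro x
    conv_lhs => rw [pi_eq_sum_univ' x]
    rw [map_sum]
    refine Finset.sum_congr rfl fun i _ => ?_
    rw [map_smul, smul_eq_mul]
  obtain ⟨b, hb⟩ := IsLocalization.exist_integer_multiples_of_finite (nonZeroDivisors A)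
    (fun i : Fin n => f (Pi.single i (1 : K)))
  choose c hc using hb
  have hb0 : ι (b : A) ≠ 0 := by
    rw [Ne, map_eq_zero_iff _ hι]
    exact nonZeroDivisors.coe_ne_zero b
  have hc' : ∀ i, ι (c i) = ι (b : A) * f (Pi.single i (1 : K)) := fun i => by
    have := hc i
    rw [Algebra.smul_def] at this
    exact this
  refine ⟨c, ?_, fun j => ?_⟩
  · intro h0
    apply hf0
    refine LinearMap.ext fun x => ?_
    rw [hfx, LinearMap.zero_apply]
    refine Finset.sum_eq_zero fun i _ => ?_
    have h1 := hc' i
    rw [h0] at h1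
    have h2 : f (Pi.single i (1 : K)) = 0 := by
      rw [Pi.zero_apply, map_zero] at h1
      exact (mul_eq_zero.1 h1.symm).resolve_left hb0
    rw [h2, mul_zero]
  · apply hι
    rw [map_zero, map_sum]
    have h1 : f (fun i => ι (V j i)) = 0 := hf (Submodule.subset_span ⟨j, rfl⟩)
    rw [hfx] at h1
    calc ∑ i, ι (c i * V j i) = ι (b : A) * ∑ i, ι (V j i) * f (Pi.single i (1 : K)) := by
          rw [Finset.mul_sum]
          refine Finset.sum_congr rfl fun i _ => ?_
          rw [map_mul, hc' i]
          ring
      _ = 0 := by rw [h1, mul_zero]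

end LIN

theorem t_LIN : S_LIN := by
  intro n r V h
  exact LIN.main V h

end Pool.Agent.NH97.MI
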