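import Pool.Agent.NH97.MI.Stm

set_option autoImplicit false

/-! # MI-1: the coefficients of `x_i ↦ t ^ (a_i) x_i` are the weighted homogeneous components -/

namespace Pool.Agent.NH97.MI

open MvPolynomial

namespace PHI

lemma weight_eq {n : ℕ} (a : Fin n → ℕ) (u : Fin n →₀ ℕ) :
    Finsupp.weight a u = ∑ i, a i * u i := by
  rw [Finsupp.weight_apply, Finsupp.sum_fintype _ _ (fun i => by simp)]
  exact Finset.sum_congr rfl (fun i _ => by rw [smul_eq_mul, mul_comm])

lemma mon_eq {n : ℕ} (u : Fin n →₀ ℕ) (c : ℂ) :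
    (monomial u c : MvPolynomial (Fin n) ℂ) = C c * ∏ i, X i ^ u i := by
  rw [monomial_eq, Finsupp.prod_fintype _ _ (fun i => by simp)]

lemma phi_monomial {n : ℕ} (a : Fin n → ℕ) (u : Fin n →₀ ℕ) (c : ℂ) :
    phi a (monomial u c) =
      Polynomial.C (monomial u c) * Polynomial.X ^ (∑ i, a i * u i) := by
  unfold phi
  rw [coe_eval₂Hom, eval₂_monomial, Finsupp.prod_fintype _ _ (fun i => by simp), mon_eq]
  simp only [mul_pow, Finset.prod_mul_distrib, ← pow_mul, Finset.prod_pow_eq_pow_sum,
    RingHom.comp_apply, map_mul, map_prod, map_pow]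
  ring

lemma whc_monomial {n : ℕ} (a : Fin n → ℕ) (k : ℕ) (u : Fin n →₀ ℕ) (c : ℂ) :
    weightedHomogeneousComponent a k (monomial u c : MvPolynomial (Fin n) ℂ) =
      if k = ∑ i, a i * u i then monomial u c else 0 := by
  rw [← weight_eq]
  have h : (monomial u c : MvPolynomial (Fin n) ℂ) ∈
      weightedHomogeneousSubmodule ℂ a (Finsupp.weight a u) :=
    isWeightedHomogeneous_monomial a u c rfl
  split_ifs with hk
  · subst hk
    exact weightedHomogeneousComponent_of_mem h |>.trans (by simp)
  · exact (weightedHomogeneousComponent_of_mem h).trans (by simp [hk])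

end PHI

theorem t_PHI : S_PHI := by
  intro n a p k
  induction p using MvPolynomial.induction_on' with
  | monomial u c =>
    rw [PHI.phi_monomial, PHI.whc_monomial, Polynomial.coeff_C_mul, Polynomial.coeff_X_pow]
    split_ifs <;> simp
  | add p q hp hq => rw [map_add, Polynomial.coeff_add, hp, hq, map_add]

end Pool.Agent.NH97.MI
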