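import Pool.Agent.NH97.MI.Stm

set_option autoImplicit false

/-! # Integrality over the algebra of the initial forms -/

namespace Pool.Agent.NH97.MI
namespace RED

open MvPolynomial

variable {n : ℕ}

/-- `phi p` is divisible by `X ^ m` and the initial coefficient is in `G` -/
def Div (a : Fin n → ℕ) (G : Subalgebra ℂ (MvPolynomial (Fin n) ℂ)) (m : ℕ)
    (p : MvPolynomial (Fin n) ℂ) : Prop :=
  ∃ q : Polynomial (MvPolynomial (Fin n) ℂ), phi a p = Polynomial.X ^ m * q ∧ q.coeff 0 ∈ G

variable {a : Fin n → ℕ} {G : Subalgebra ℂ (MvPolynomial (Fin n) ℂ)}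

theorem Div.zero (m : ℕ) : Div a G m 0 := ⟨0, by simp, by simp⟩

theorem Div.add {m : ℕ} {p p' : MvPolynomial (Fin n) ℂ} (h : Div a G m p) (h' : Div a G m p') :
    Div a G m (p + p') := by
  obtain ⟨q, hq, hG⟩ := h
  obtain ⟨q', hq', hG'⟩ := h'
  refine ⟨q + q', ?_, ?_⟩
  · rw [map_add, hq, hq', mul_add]
  · rw [Polynomial.coeff_add]; exact G.add_mem hG hG'

theorem Div.mul {m m' : ℕ} {p p' : MvPolynomial (Fin n) ℂ} (h : Div a G m p)
    (h' : Div a G m' p') : Div a G (m + m') (p * p') := by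
  obtain ⟨q, hq, hG⟩ := h
  obtain ⟨q', hq', hG'⟩ := h'
  refine ⟨q * q', ?_, ?_⟩
  · rw [map_mul, hq, hq', pow_add]; ring
  · rw [Polynomial.mul_coeff_zero]; exact G.mul_mem hG hG'

theorem phi_coeff_zero (ha : ∀ i, 1 ≤ a i) (h : MvPolynomial (Fin n) ℂ) :
    (phi a h).coeff 0 = C (constantCoeff h) := by
  have key : (Polynomial.constantCoeff (R := MvPolynomial (Fin n) ℂ)).comp (phi a)
      = (C (σ := Fin n) (R := ℂ)).comp constantCoeff := by
    apply MvPolynomial.ringHom_ext
    · intro r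
      simp [phi]
    · intro i
      have h0 : ¬ (0 = a i) := by have := ha i; omega
      simp [phi, h0]
  exact RingHom.congr_fun key h

theorem Div.all (ha : ∀ i, 1 ≤ a i) (h : MvPolynomial (Fin n) ℂ) : Div a G 0 h := by
  refine ⟨phi a h, by simp, ?_⟩
  rw [phi_coeff_zero ha]
  exact G.algebraMap_mem (constantCoeff h)

theorem phi_mon (μ : Fin n → ℕ) :
    phi a (mon μ) = Polynomial.X ^ (∑ i, a i * μ i) * Polynomial.C (mon μ) := by
  unfold mon phi
  rw [map_prod, map_prod, ← Finset.prod_pow_eq_pow_sum, ← Finset.prod_mul_distrib]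
  refine Finset.prod_congr rfl fun i _ => ?_
  rw [map_pow, eval₂Hom_X', mul_pow, ← pow_mul, map_pow]

theorem Div.ideal {r : ℕ} {f : Fin r → MvPolynomial (Fin n) ℂ} (ha : ∀ i, 1 ≤ a i) {d : ℕ}
    (hf : ∀ j, Div a G d (f j)) {p : MvPolynomial (Fin n) ℂ}
    (hp : p ∈ Ideal.span (Set.range f)) : Div a G d p := by
  refine Submodule.span_induction (p := fun p _ => Div a G d p) ?_ ?_ ?_ ?_ hp
  · rintro _ ⟨j, rfl⟩
    exact hf j
  · exact Div.zero d
  · intro x y _ _ hx hy
    exact hx.add hy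
  · intro h x _ hx
    have := (Div.all (G := G) ha h).mul hx
    rwa [zero_add] at this

theorem Div.idealPow {r : ℕ} {f : Fin r → MvPolynomial (Fin n) ℂ} (ha : ∀ i, 1 ≤ a i) {d : ℕ}
    (hf : ∀ j, Div a G d (f j)) (i : ℕ) : ∀ p ∈ Ideal.span (Set.range f) ^ i,
    Div a G (d * i) p := by
  induction i with
  | zero => intro p _; exact Div.all ha p
  | succ i ih =>
    intro p hp
    rw [pow_succ] at hp
    refine Submodule.mul_induction_on hp ?_ ?_
    · intro x hx y hy
      have := (ih x hx).mul (Div.ideal ha hf hy)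
      rwa [← Nat.mul_succ] at this
    · intro x y hx hy
      exact hx.add hy

end RED

open MvPolynomial RED

theorem t_RED (hP : S_PHI) : S_RED := by
  intro n r f a ha d hf μ hμ hI
  set G : Subalgebra ℂ (MvPolynomial (Fin n) ℂ) :=
    Algebra.adjoin ℂ (Set.range fun j => weightedHomogeneousComponent a d (f j)) with hG
  obtain ⟨N, H, c, hN, hH, hc, hEq⟩ := hI
  have hfD : ∀ j, Div a G d (f j) := by
    intro j
    obtain ⟨q, hq⟩ : Polynomial.X ^ d ∣ phi a (f j) := by
      rw [Polynomial.X_pow_dvd_iff]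
      intro k hk
      rw [hP, hf j k hk]
    refine ⟨q, hq, ?_⟩
    have h1 : q.coeff 0 = (phi a (f j)).coeff d := by
      rw [hq]
      have := Polynomial.coeff_X_pow_mul q d 0
      rw [zero_add] at this
      exact this.symm
    rw [h1, hP]
    exact Algebra.subset_adjoin ⟨j, rfl⟩
  have hD : ∀ i, ∃ q : Polynomial (MvPolynomial (Fin n) ℂ),
      phi a (c i) = Polynomial.X ^ (d * i) * q ∧ q.coeff 0 ∈ G :=
    fun i => Div.idealPow ha hfD i (c i) (hc i)
  choose q hq hqG using hD
  have hy : phi a (mon μ) = Polynomial.X ^ d * Polynomial.C (mon μ) := by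
    rw [phi_mon, hμ]
  have h1 : phi a H * Polynomial.C (mon μ) ^ N
      = ∑ i ∈ Finset.range N, q (N - i) * Polynomial.C (mon μ) ^ i := by
    have h2 := congrArg (phi a) hEq
    rw [map_mul, map_pow, hy, map_sum] at h2
    have hX : (Polynomial.X ^ (d * N) : Polynomial (MvPolynomial (Fin n) ℂ)) ≠ 0 :=
      pow_ne_zero _ Polynomial.X_ne_zero
    apply mul_left_cancel₀ hX
    rw [Finset.mul_sum]
    calc Polynomial.X ^ (d * N) * (phi a H * Polynomial.C (mon μ) ^ N)
        = phi a H * (Polynomial.X ^ d * Polynomial.C (mon μ)) ^ N := by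
          rw [mul_pow, ← pow_mul]; ring
      _ = _ := h2
      _ = _ := by
          refine Finset.sum_congr rfl fun i hi => ?_
          have hi' : i < N := Finset.mem_range.1 hi
          rw [map_mul, map_pow, hy, hq, mul_pow, ← pow_mul]
          have : d * N = d * (N - i) + d * i := by
            rw [← mul_add]; congr 1; omega
          rw [this, pow_add]
          ring
  have h2 : C (constantCoeff H) * mon μ ^ N
      = ∑ i ∈ Finset.range N, (q (N - i)).coeff 0 * mon μ ^ i := by
    have h3 := congrArg (Polynomial.constantCoeff (R := MvPolynomial (Fin n) ℂ)) h1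
    rw [map_mul, map_pow, map_sum] at h3
    simp only [map_mul, map_pow] at h3
    simp only [Polynomial.constantCoeff_apply, Polynomial.coeff_C_zero] at h3
    rw [phi_coeff_zero ha] at h3
    exact h3
  let b : ℕ → G := fun i => (constantCoeff H)⁻¹ • ⟨(q (N - i)).coeff 0, hqG (N - i)⟩
  let P : Polynomial G := Polynomial.X ^ N - ∑ i ∈ Finset.range N,
    Polynomial.C (b i) * Polynomial.X ^ i
  refine ⟨P, ?_, ?_⟩
  · apply Polynomial.monic_X_pow_sub
    refine Polynomial.mem_degreeLT.1 (Submodule.sum_mem _ fun i hi => Polynomial.mem_degreeLT.2 ?_)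
    refine (Polynomial.degree_C_mul_X_pow_le _ _).trans_lt ?_
    exact_mod_cast Finset.mem_range.1 hi
  · have hb : ∀ i, (algebraMap G (MvPolynomial (Fin n) ℂ)) (b i)
        = C (constantCoeff H)⁻¹ * (q (N - i)).coeff 0 := by
      intro i
      show (((constantCoeff H)⁻¹ • (⟨(q (N - i)).coeff 0, hqG (N - i)⟩ : G) : G) :
        MvPolynomial (Fin n) ℂ) = _
      rw [Subalgebra.coe_smul, MvPolynomial.smul_eq_C_mul]
    rw [Polynomial.eval₂_sub, Polynomial.eval₂_finsetSum, Polynomial.eval₂_X_pow]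
    simp only [Polynomial.eval₂_mul, Polynomial.eval₂_C, Polynomial.eval₂_X_pow, hb]
    simp only [mul_assoc, ← Finset.mul_sum]
    rw [← h2, ← mul_assoc, ← map_mul, inv_mul_cancel₀ hH, map_one, one_mul, sub_self]

end Pool.Agent.NH97.MI
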