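import Pool.Agent.NH97.MI.Stm2
import Pool.Agent.NH97.MI.RED

set_option autoImplicit false

/-! # Algebraicity over the algebra of the initial forms, for weights which may be zero -/

namespace Pool.Agent.NH97.MI
namespace RED2

open MvPolynomial RED

variable {n : ℕ} {a : Fin n → ℕ} {G : Subalgebra ℂ (MvPolynomial (Fin n) ℂ)}

theorem coeff_mem (hG : ∀ i, a i = 0 → (X i : MvPolynomial (Fin n) ℂ) ∈ G)
    (h : MvPolynomial (Fin n) ℂ) : (phi a h).coeff 0 ∈ G := by
  induction h using MvPolynomial.induction_on with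
  | C c =>
    have : (phi a (C c : MvPolynomial (Fin n) ℂ)).coeff 0 = C c := by simp [phi]
    rw [this]
    exact G.algebraMap_mem c
  | add p q hp hq =>
    rw [map_add, Polynomial.coeff_add]
    exact G.add_mem hp hq
  | mul_X p i hp =>
    rw [map_mul, Polynomial.mul_coeff_zero]
    refine G.mul_mem hp ?_
    have h1 : phi a (X i : MvPolynomial (Fin n) ℂ) = Polynomial.X ^ a i * Polynomial.C (X i) := by
      simp [phi]
    rw [h1, Polynomial.mul_coeff_zero, Polynomial.coeff_C_zero, Polynomial.coeff_X_pow]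
    by_cases hi : a i = 0
    · rw [if_pos hi.symm, one_mul]
      exact hG i hi
    · rw [if_neg (fun h => hi h.symm), zero_mul]
      exact G.zero_mem

theorem constantCoeff_coeff (h : MvPolynomial (Fin n) ℂ) :
    constantCoeff ((phi a h).coeff 0) = constantCoeff h := by
  have key : ((constantCoeff (σ := Fin n) (R := ℂ)).comp
      (Polynomial.constantCoeff (R := MvPolynomial (Fin n) ℂ))).comp (phi a) =
      constantCoeff (σ := Fin n) (R := ℂ) := by
    apply MvPolynomial.ringHom_ext
    · intro r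
      simp [phi]
    · intro i
      simp only [phi, RingHom.comp_apply, coe_eval₂Hom, eval₂_X, Polynomial.constantCoeff_apply,
        Polynomial.coeff_C_zero, map_mul, constantCoeff_X, mul_zero]
  exact RingHom.congr_fun key h

theorem Div.all (hG : ∀ i, a i = 0 → (X i : MvPolynomial (Fin n) ℂ) ∈ G)
    (h : MvPolynomial (Fin n) ℂ) : Div a G 0 h :=
  ⟨phi a h, by simp, coeff_mem hG h⟩

theorem Div.ideal {r : ℕ} {f : Fin r → MvPolynomial (Fin n) ℂ}
    (hG : ∀ i, a i = 0 → (X i : MvPolynomial (Fin n) ℂ) ∈ G) {d : ℕ}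
    (hf : ∀ j, Div a G d (f j)) {p : MvPolynomial (Fin n) ℂ}
    (hp : p ∈ Ideal.span (Set.range f)) : Div a G d p := by
  refine Submodule.span_induction (p := fun p _ => Div a G d p) ?_ ?_ ?_ ?_ hp
  · rintro _ ⟨j, rfl⟩
    exact hf j
  · exact RED.Div.zero d
  · intro x y _ _ hx hy
    exact RED.Div.add hx hy
  · intro h x _ hx
    have := RED.Div.mul (Div.all hG h) hx
    rwa [zero_add] at this

theorem Div.idealPow {r : ℕ} {f : Fin r → MvPolynomial (Fin n) ℂ}
    (hG : ∀ i, a i = 0 → (X i : MvPolynomial (Fin n) ℂ) ∈ G) {d : ℕ}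
    (hf : ∀ j, Div a G d (f j)) (i : ℕ) : ∀ p ∈ Ideal.span (Set.range f) ^ i,
    Div a G (d * i) p := by
  induction i with
  | zero => intro p _; exact Div.all hG p
  | succ i ih =>
    intro p hp
    rw [pow_succ] at hp
    refine Submodule.mul_induction_on hp ?_ ?_
    · intro x hx y hy
      have := RED.Div.mul (ih x hx) (Div.ideal hG hf hy)
      rwa [← Nat.mul_succ] at this
    · intro x y hx hy
      exact RED.Div.add hx hy

end RED2

open MvPolynomial RED

theorem t_RED2 (hP : S_PHI) : S_RED2 := by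
  intro n r f a d hf μ hμ hI
  set G : Subalgebra ℂ (MvPolynomial (Fin n) ℂ) :=
    Algebra.adjoin ℂ ({p | ∃ i, a i = 0 ∧ p = X i} ∪
      Set.range fun j => weightedHomogeneousComponent a d (f j)) with hG
  have hGX : ∀ i, a i = 0 → (X i : MvPolynomial (Fin n) ℂ) ∈ G := fun i hi =>
    Algebra.subset_adjoin (Or.inl ⟨i, hi, rfl⟩)
  obtain ⟨N, H, c, hN, hH, hc, hEq⟩ := hI
  have hfD : ∀ j, Div a G d (f j) := by
    intro j
    obtain ⟨q, hq⟩ : Polynomial.X ^ d ∣ phi a (f j) := by
      rw [Polynomial.X_pow_dvd_iff]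
      intro k hk
      rw [hP, hf j k hk]
    refine ⟨q, hq, ?_⟩
    have h1 : q.coeff 0 = (phi a (f j)).coeff d := by
      rw [hq]
      have := Polynomial.coeff_X_pow_mul q d 0
      rw [zero_add] at this
      exact this.symm
    rw [h1, hP]
    exact Algebra.subset_adjoin (Or.inr ⟨j, rfl⟩)
  have hD : ∀ i, ∃ q : Polynomial (MvPolynomial (Fin n) ℂ),
      phi a (c i) = Polynomial.X ^ (d * i) * q ∧ q.coeff 0 ∈ G :=
    fun i => RED2.Div.idealPow hGX hfD i (c i) (hc i)
  choose q hq hqG using hD
  have hy : phi a (mon μ) = Polynomial.X ^ d * Polynomial.C (mon μ) := by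
    rw [phi_mon, hμ]
  have h1 : phi a H * Polynomial.C (mon μ) ^ N
      = ∑ i ∈ Finset.range N, q (N - i) * Polynomial.C (mon μ) ^ i := by
    have h2 := congrArg (phi a) hEq
    rw [map_mul, map_pow, hy, map_sum] at h2
    have hX : (Polynomial.X ^ (d * N) : Polynomial (MvPolynomial (Fin n) ℂ)) ≠ 0 :=
      pow_ne_zero _ Polynomial.X_ne_zero
    apply mul_left_cancel₀ hX
    rw [Finset.mul_sum]
    calc Polynomial.X ^ (d * N) * (phi a H * Polynomial.C (mon μ) ^ N)
        = phi a H * (Polynomial.X ^ d * Polynomial.C (mon μ)) ^ N := by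
          rw [mul_pow, ← pow_mul]; ring
      _ = _ := h2
      _ = _ := by
          refine Finset.sum_congr rfl fun i hi => ?_
          have hi' : i < N := Finset.mem_range.1 hi
          rw [map_mul, map_pow, hy, hq, mul_pow, ← pow_mul]
          have : d * N = d * (N - i) + d * i := by
            rw [← mul_add]; congr 1; omega
          rw [this, pow_add]
          ring
  have h2 : (phi a H).coeff 0 * mon μ ^ N
      = ∑ i ∈ Finset.range N, (q (N - i)).coeff 0 * mon μ ^ i := by
    have h3 := congrArg (Polynomial.constantCoeff (R := MvPolynomial (Fin n) ℂ)) h1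
    rw [map_mul, map_pow, map_sum] at h3
    simp only [map_mul, map_pow] at h3
    simp only [Polynomial.constantCoeff_apply, Polynomial.coeff_C_zero] at h3
    exact h3
  have hH0 : (phi a H).coeff 0 ≠ 0 := by
    intro h
    have h3 := RED2.constantCoeff_coeff (a := a) H
    rw [h, map_zero] at h3
    exact hH h3.symm
  let h0 : G := ⟨(phi a H).coeff 0, RED2.coeff_mem hGX H⟩
  have hh0 : h0 ≠ 0 := fun h => hH0 (congrArg Subtype.val h)
  let b : ℕ → G := fun i => ⟨(q (N - i)).coeff 0, hqG (N - i)⟩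
  let P : Polynomial G := Polynomial.C h0 * Polynomial.X ^ N - ∑ i ∈ Finset.range N,
    Polynomial.C (b i) * Polynomial.X ^ i
  refine ⟨P, ?_, ?_⟩
  · intro hP0
    have h3 := congrArg (fun p => Polynomial.coeff p N) hP0
    simp only [P, Polynomial.coeff_sub, Polynomial.finsetSum_coeff, Polynomial.coeff_C_mul_X_pow,
      Polynomial.coeff_zero, if_true] at h3
    rw [Finset.sum_eq_zero, sub_zero] at h3
    · exact hh0 h3
    · intro i hi
      rw [if_neg]
      have := Finset.mem_range.1 hi
      omega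
  · have hb : ∀ i, (algebraMap G (MvPolynomial (Fin n) ℂ)) (b i) = (q (N - i)).coeff 0 :=
      fun i => rfl
    have hh : (algebraMap G (MvPolynomial (Fin n) ℂ)) h0 = (phi a H).coeff 0 := rfl
    rw [Polynomial.aeval_def, Polynomial.eval₂_sub, Polynomial.eval₂_finsetSum]
    simp only [Polynomial.eval₂_mul, Polynomial.eval₂_C, Polynomial.eval₂_X_pow, hb, hh]
    rw [h2, sub_self]

end Pool.Agent.NH97.MI
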