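import Pool.Agent.NH97.MI.Stm2

set_option autoImplicit false

/-! # Project MI, MI-11: permutations of the variables (helper70) -/

namespace Pool.Agent.NH97.MI

open MvPolynomial

namespace REN

lemma weight_mapDomain {n : ℕ} (σ : Equiv.Perm (Fin n)) (v : Fin n → ℕ) (u : Fin n →₀ ℕ) :
    Finsupp.weight (v ∘ σ.symm) (u.mapDomain σ) = Finsupp.weight v u := by
  rw [Finsupp.weight_apply, Finsupp.weight_apply, Finsupp.sum_mapDomain_index]
  · refine Finsupp.sum_congr fun i _ => ?_
    simp
  · intro i
    simp
  · intro i a b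
    exact add_smul a b _

lemma comp_rename {n : ℕ} (σ : Equiv.Perm (Fin n)) (v : Fin n → ℕ) (d : ℕ)
    (p : MvPolynomial (Fin n) ℂ) :
    weightedHomogeneousComponent (v ∘ σ.symm) d (rename σ p) =
      rename σ (weightedHomogeneousComponent v d p) := by
  classical
  induction p using MvPolynomial.induction_on' with
  | monomial u c =>
    rw [rename_monomial]
    by_cases h : Finsupp.weight v u = d
    · rw [IsWeightedHomogeneous.weightedHomogeneousComponent_same
        (isWeightedHomogeneous_monomial _ _ _ ((weight_mapDomain σ v u).trans h)),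
        IsWeightedHomogeneous.weightedHomogeneousComponent_same
        (isWeightedHomogeneous_monomial _ _ _ h), rename_monomial]
    · rw [IsWeightedHomogeneous.weightedHomogeneousComponent_ne d
        (isWeightedHomogeneous_monomial _ _ _ (weight_mapDomain σ v u)) (Ne.symm h),
        IsWeightedHomogeneous.weightedHomogeneousComponent_ne d
        (isWeightedHomogeneous_monomial _ _ _ rfl) (Ne.symm h), map_zero]
  | add p q hp hq =>
    rw [map_add, map_add, map_add, map_add, hp, hq]

lemma jac_rename {n : ℕ} (σ : Equiv.Perm (Fin n)) (F : Fin n → MvPolynomial (Fin n) ℂ)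
    (h : (Matrix.of fun s t => pderiv s (F t)).det ≠ 0) :
    (Matrix.of fun s t => pderiv s (rename σ (F t))).det ≠ 0 := by
  have h1 : (Matrix.of fun s t => pderiv s (rename σ (F t))) =
      (rename σ : MvPolynomial (Fin n) ℂ →ₐ[ℂ] MvPolynomial (Fin n) ℂ).mapMatrix
        ((Matrix.of fun s t => pderiv s (F t)).submatrix σ.symm id) := by
    ext1 s t
    have h2 := pderiv_rename (R := ℂ) σ.injective (σ.symm s) (F t)
    rw [Equiv.apply_symm_apply] at h2
    simpa using h2
  rw [h1, ← AlgHom.map_det, Matrix.det_permute]
  intro h3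
  have h4 := rename_injective (R := ℂ) σ σ.injective (h3.trans (map_zero _).symm)
  rcases mul_eq_zero.1 h4 with h5 | h5
  · rcases Int.units_eq_one_or (Equiv.Perm.sign σ.symm) with h6 | h6 <;> rw [h6] at h5 <;>
      simp at h5
  · exact h h5

end REN

/-- MI-11 -/
theorem t_REN : S_REN := fun σ => ⟨fun v d p => REN.comp_rename σ v d p,
  fun F h => REN.jac_rename σ F h⟩

end Pool.Agent.NH97.MI
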