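import Pool.Agent.NH97.MI.Stm

set_option autoImplicit false

/-! # MI-7: the components of the elements of a monomial ideal -/

namespace Pool.Agent.NH97.MI

open MvPolynomial

namespace SUB

theorem phi_X {n : ℕ} (a : Fin n → ℕ) (i : Fin n) :
    phi a (X i) = Polynomial.X ^ a i * Polynomial.C (X i) := by
  unfold phi
  rw [coe_eval₂Hom, eval₂_X]

theorem phi_mon {n : ℕ} (a μ : Fin n → ℕ) :
    (Polynomial.X : Polynomial (MvPolynomial (Fin n) ℂ)) ^ (∑ i, a i * μ i) ∣ phi a (mon μ) := by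
  unfold mon
  rw [map_prod]
  have h1 : ∏ i, phi a (X i ^ μ i) =
      (∏ i, Polynomial.X ^ (a i * μ i)) * ∏ i, (Polynomial.C (X i)) ^ μ i := by
    rw [← Finset.prod_mul_distrib]
    refine Finset.prod_congr rfl fun i _ => ?_
    rw [map_pow, phi_X, mul_pow, ← pow_mul]
  rw [h1, Finset.prod_pow_eq_pow_sum]
  exact dvd_mul_right _ _

end SUB

theorem t_SUB (hP : S_PHI) : S_SUB := by
  intro n s m a d hd p hp k hk
  rw [← hP a p k]
  have h1 : Ideal.span (Set.range fun k => mon (m k)) ≤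
      Ideal.comap (phi a) (Ideal.span {(Polynomial.X : Polynomial (MvPolynomial (Fin n) ℂ)) ^ d}) := by
    rw [Ideal.span_le]
    rintro _ ⟨k, rfl⟩
    rw [SetLike.mem_coe, Ideal.mem_comap, Ideal.mem_span_singleton]
    exact (pow_dvd_pow _ (hd k)).trans (SUB.phi_mon a (m k))
  have h2 := h1 hp
  rw [Ideal.mem_comap, Ideal.mem_span_singleton] at h2
  exact (Polynomial.X_pow_dvd_iff.1 h2) k hk

end Pool.Agent.NH97.MI
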