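import Mathlib

set_option autoImplicit false

/-! # Project MI (helper97), MP_4e5fcd_ag: ideals of finite colength whose integral closure is monomial

Statements of the parts. -/

namespace Pool.Agent.NH97.MI

open MvPolynomial

/-- `y` is integral over the ideal `I` in the local ring at the origin:
`H y ^ N = ∑_{i < N} c_(N - i) y ^ i` with `c_i ∈ I ^ i` and `H(0) ≠ 0` -/
def IntegralAt {n : ℕ} (I : Ideal (MvPolynomial (Fin n) ℂ)) (y : MvPolynomial (Fin n) ℂ) : Prop :=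
  ∃ (N : ℕ) (H : MvPolynomial (Fin n) ℂ) (c : ℕ → MvPolynomial (Fin n) ℂ), 0 < N ∧
    constantCoeff H ≠ 0 ∧ (∀ i, c i ∈ I ^ i) ∧
    H * y ^ N = ∑ i ∈ Finset.range N, c (N - i) * y ^ i

/-- the monomial `x ^ μ` -/
noncomputable def mon {n : ℕ} (μ : Fin n → ℕ) : MvPolynomial (Fin n) ℂ := ∏ i, X i ^ μ i

/-- the substitution `x_i ↦ t ^ (a_i) x_i` -/
noncomputable def phi {n : ℕ} (a : Fin n → ℕ) :
    MvPolynomial (Fin n) ℂ →+* Polynomial (MvPolynomial (Fin n) ℂ) :=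
  eval₂Hom (Polynomial.C.comp C) (fun i => Polynomial.X ^ a i * Polynomial.C (X i))

/-- MI-1: the coefficients of `phi` are the weighted homogeneous components -/
def S_PHI : Prop := ∀ {n : ℕ} (a : Fin n → ℕ) (p : MvPolynomial (Fin n) ℂ) (k : ℕ),
  (phi a p).coeff k = weightedHomogeneousComponent a k p

/-- MI-2: a monomial on the face is integral over the algebra of the initial forms -/
def S_RED : Prop := ∀ {n r : ℕ} (f : Fin r → MvPolynomial (Fin n) ℂ) (a : Fin n → ℕ),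
  (∀ i, 1 ≤ a i) → ∀ d : ℕ, (∀ j, ∀ k < d, weightedHomogeneousComponent a k (f j) = 0) →
  ∀ μ : Fin n → ℕ, ∑ i, a i * μ i = d → IntegralAt (Ideal.span (Set.range f)) (mon μ) →
    IsIntegral (Algebra.adjoin ℂ (Set.range fun j => weightedHomogeneousComponent a d (f j)))
      (mon μ)

/-- MI-3: derivations and integral elements -/
def S_DRV : Prop := ∀ {n : ℕ} (R : Subalgebra ℂ (MvPolynomial (Fin n) ℂ))
  (D : Derivation ℂ (MvPolynomial (Fin n) ℂ) (MvPolynomial (Fin n) ℂ)), (∀ g ∈ R, D g = 0) →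
  ∀ y, IsIntegral R y → D y = 0

/-- MI-4: linear algebra -/
def S_LIN : Prop := ∀ {n r : ℕ} (V : Fin r → Fin n → MvPolynomial (Fin n) ℂ),
  (∀ e : Fin n → Fin r, (Matrix.of fun s t => V (e t) s).det = 0) →
  ∃ c : Fin n → MvPolynomial (Fin n) ℂ, c ≠ 0 ∧ ∀ j, ∑ i, c i * V j i = 0

/-- MI-5: the exponents on a facet span the space: `a` is the ray, `F` the set of the exponents on the
facet, `N > 0` their weight -/
def S_FAC : Prop := ∀ {n : ℕ} (a : Fin n → ℕ) (F : Set (Fin n → ℕ)) (N : ℕ), 0 < N → F.Nonempty →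
  (∀ i, 1 ≤ a i) → (∀ μ ∈ F, ∑ i, a i * μ i = N) →
  (∀ u : Fin n → ℚ, (∀ μ ∈ F, ∀ μ' ∈ F, ∑ i, u i * (μ i : ℚ) = ∑ i, u i * (μ' i : ℚ)) →
    ∃ r : ℚ, ∀ i, u i = r * a i) →
  ∀ c : Fin n → MvPolynomial (Fin n) ℂ, (∀ μ ∈ F, ∑ i, c i * pderiv i (mon μ) = 0) → c = 0

/-- MI-6: the orders along the arcs -/
def S_ARC : Prop := ∀ {n : ℕ} (I : Ideal (MvPolynomial (Fin n) ℂ)) (y : MvPolynomial (Fin n) ℂ),
  IntegralAt I y → ∀ γ : Fin n → PowerSeries ℂ, (∀ i, PowerSeries.constantCoeff (γ i) = 0) →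
  ∀ e : ℕ, (∀ g ∈ I, (PowerSeries.X : PowerSeries ℂ) ^ e ∣ aeval γ g) →
    (PowerSeries.X : PowerSeries ℂ) ^ e ∣ aeval γ y

/-- MI-7: the components of the elements of a monomial ideal -/
def S_SUB : Prop := ∀ {n s : ℕ} (m : Fin s → Fin n → ℕ) (a : Fin n → ℕ) (d : ℕ),
  (∀ k, d ≤ ∑ i, a i * m k i) → ∀ p ∈ Ideal.span (Set.range fun k => mon (m k)),
  ∀ k < d, weightedHomogeneousComponent a k p = 0

end Pool.Agent.NH97.MI
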