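import Pool.Agent.NH97.MI.Stm

set_option autoImplicit false

/-! # Project MI, part 2: monomial integral closure without the condition of finite colength -/

namespace Pool.Agent.NH97.MI

open MvPolynomial

/-- MI-8: like `S_RED`, for weights which may be zero -/
def S_RED2 : Prop := ∀ {n r : ℕ} (f : Fin r → MvPolynomial (Fin n) ℂ) (a : Fin n → ℕ) (d : ℕ),
  (∀ j, ∀ k < d, weightedHomogeneousComponent a k (f j) = 0) →
  ∀ μ : Fin n → ℕ, ∑ i, a i * μ i = d → IntegralAt (Ideal.span (Set.range f)) (mon μ) →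
    IsAlgebraic (Algebra.adjoin ℂ ({p | ∃ i, a i = 0 ∧ p = X i} ∪
      Set.range fun j => weightedHomogeneousComponent a d (f j))) (mon μ)

/-- MI-9: like `S_DRV`, for algebraic elements -/
def S_DRV2 : Prop := ∀ {n : ℕ} (R : Subalgebra ℂ (MvPolynomial (Fin n) ℂ))
  (D : Derivation ℂ (MvPolynomial (Fin n) ℂ) (MvPolynomial (Fin n) ℂ)), (∀ g ∈ R, D g = 0) →
  ∀ y, IsAlgebraic R y → D y = 0

/-- MI-10: like `S_FAC`, for weights which may be zero -/
def S_FAC2 : Prop := ∀ {n : ℕ} (a : Fin n → ℕ) (F : Set (Fin n → ℕ)) (N : ℕ), 0 < N → F.Nonempty →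
  (∀ μ ∈ F, ∑ i, a i * μ i = N) →
  (∀ u : Fin n → ℚ, (∀ i, a i = 0 → u i = 0) →
    (∀ μ ∈ F, ∀ μ' ∈ F, ∑ i, u i * (μ i : ℚ) = ∑ i, u i * (μ' i : ℚ)) →
    ∃ r : ℚ, ∀ i, u i = r * a i) →
  ∀ c : Fin n → MvPolynomial (Fin n) ℂ, (∀ i, a i = 0 → c i = 0) →
    (∀ μ ∈ F, ∑ i, c i * pderiv i (mon μ) = 0) → c = 0

/-- MI-11: permutations of the variables -/
def S_REN : Prop := ∀ {n : ℕ} (σ : Equiv.Perm (Fin n)),
  (∀ (v : Fin n → ℕ) (d : ℕ) (p : MvPolynomial (Fin n) ℂ),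
    weightedHomogeneousComponent (v ∘ σ.symm) d (rename σ p) =
      rename σ (weightedHomogeneousComponent v d p)) ∧
  ∀ F : Fin n → MvPolynomial (Fin n) ℂ, (Matrix.of fun s t => pderiv s (F t)).det ≠ 0 →
    (Matrix.of fun s t => pderiv s (rename σ (F t))).det ≠ 0

end Pool.Agent.NH97.MI
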